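import Mathlib
import Pool.Agent.ST50.Defs
import Pool.Agent.ST11.Kernels

/-!
# GM65.Core: the Cauchy (Lyapunov) kernel of a real-rooted polynomial

`f = ∏_{l ∈ t} (1 + u_l x)`, `e^{(l)}_k` the coefficients of `f / (1 + u_l x)`.
`CK j k = ∑_{i,l} u_i u_l / (u_i + u_l) e^{(i)}_j e^{(l)}_k`.
If `∑ f_k x_k = ∑ k f_k x_k = 0` then `∑_{j,k < n} CK j k x_j x_{k+1} = 0`.
-/

open Polynomial Finset

namespace Pool.Agent.GM65

open Pool.Agent.ST50 Pool.Agent.ST11

variable {t : Finset ℕ} {u : ℕ → ℝ}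

/-- the Cauchy kernel with weights `ω` -/
noncomputable def CW (t : Finset ℕ) (u : ℕ → ℝ) (ω : ℕ → ℕ → ℝ) (j k : ℕ) : ℝ :=
  ∑ i ∈ t, ∑ l ∈ t, ω i l * (u i * u l / (u i + u l)) *
    (cf (t.erase i) u j * cf (t.erase l) u k)

/-- the Cauchy kernel -/
noncomputable def CK (t : Finset ℕ) (u : ℕ → ℝ) (j k : ℕ) : ℝ :=
  ∑ i ∈ t, ∑ l ∈ t, (u i * u l / (u i + u l)) * (cf (t.erase i) u j * cf (t.erase l) u k)

lemma CK_eq_CW (j k : ℕ) : CK t u j k = CW t u (fun _ _ => 1) j k := by
  unfold CK CW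
  simp

lemma CK_symm (j k : ℕ) : CK t u j k = CK t u k j := by
  unfold CK
  rw [Finset.sum_comm]
  refine Finset.sum_congr rfl (fun i _ => Finset.sum_congr rfl (fun l _ => ?_))
  rw [add_comm (u l) (u i)]
  ring

/-- `U_l(x) = ∑_k e^{(l)}_k x_k` -/
noncomputable def UU (t : Finset ℕ) (u : ℕ → ℝ) (x : ℕ → ℝ) (l : ℕ) : ℝ :=
  ∑ k ∈ range t.card, cf (t.erase l) u k * x k

lemma CW_form (ω : ℕ → ℕ → ℝ) (x z : ℕ → ℝ) :
    ∑ j ∈ range t.card, ∑ k ∈ range t.card, CW t u ω j k * (x j * z k)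
      = ∑ i ∈ t, ∑ l ∈ t, ω i l * (u i * u l / (u i + u l)) * (UU t u x i * UU t u z l) := by
  have e1 : ∀ j ∈ range t.card, ∀ k ∈ range t.card, CW t u ω j k * (x j * z k)
      = ∑ i ∈ t, ∑ l ∈ t, ω i l * (u i * u l / (u i + u l)) *
        ((cf (t.erase i) u j * x j) * (cf (t.erase l) u k * z k)) := by
    intro j _ k _
    unfold CW
    rw [Finset.sum_mul]
    refine Finset.sum_congr rfl (fun i _ => ?_)
    rw [Finset.sum_mul]
    refine Finset.sum_congr rfl (fun l _ => ?_)
    ring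
  rw [Finset.sum_congr rfl (fun j hj => Finset.sum_congr rfl (fun k hk => e1 j hj k hk))]
  have e2 : ∀ j ∈ range t.card, ∑ k ∈ range t.card, ∑ i ∈ t, ∑ l ∈ t,
        ω i l * (u i * u l / (u i + u l)) *
        ((cf (t.erase i) u j * x j) * (cf (t.erase l) u k * z k))
      = ∑ i ∈ t, ∑ l ∈ t, ∑ k ∈ range t.card, ω i l * (u i * u l / (u i + u l)) *
        ((cf (t.erase i) u j * x j) * (cf (t.erase l) u k * z k)) := by
    intro j _
    rw [Finset.sum_comm]
    refine Finset.sum_congr rfl (fun i _ => ?_)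
    rw [Finset.sum_comm]
  rw [Finset.sum_congr rfl e2, Finset.sum_comm]
  refine Finset.sum_congr rfl (fun i _ => ?_)
  rw [Finset.sum_comm]
  refine Finset.sum_congr rfl (fun l _ => ?_)
  unfold UU
  rw [Finset.sum_mul_sum, Finset.mul_sum]
  refine Finset.sum_congr rfl (fun j _ => ?_)
  rw [Finset.mul_sum]

lemma CK_form (x z : ℕ → ℝ) :
    ∑ j ∈ range t.card, ∑ k ∈ range t.card, CK t u j k * (x j * z k)
      = ∑ i ∈ t, ∑ l ∈ t, (u i * u l / (u i + u l)) * (UU t u x i * UU t u z l) := by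
  have := CW_form (t := t) (u := u) (fun _ _ => 1) x z
  simp only [one_mul] at this
  rw [← this]
  refine Finset.sum_congr rfl (fun j _ => Finset.sum_congr rfl (fun k _ => ?_))
  rw [CK_eq_CW]

lemma cf_erase_top {l : ℕ} (hl : l ∈ t) : cf (t.erase l) u t.card = 0 := by
  apply cf_eq_zero
  rw [Finset.card_erase_of_mem hl]
  have := Finset.card_pos.mpr ⟨l, hl⟩
  omega

/-- `∑_{k ≤ n} f_k x_k = U_l(x) + u_l U_l(Sx)` -/
lemma sum_eq_UU {l : ℕ} (hl : l ∈ t) (x : ℕ → ℝ) :
    ∑ k ∈ range (t.card + 1), cf t u k * x k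
      = UU t u x l + u l * UU t u (fun k => x (k + 1)) l := by
  have e1 : UU t u x l = ∑ k ∈ range (t.card + 1), cf (t.erase l) u k * x k := by
    rw [Finset.sum_range_succ, cf_erase_top hl, zero_mul, add_zero]
    rfl
  rw [e1, Finset.sum_range_succ', Finset.sum_range_succ', cf_zero, cf_zero]
  unfold UU
  rw [Finset.mul_sum]
  have e2 : ∑ k ∈ range t.card, cf t u (k + 1) * x (k + 1)
      = ∑ k ∈ range t.card, cf (t.erase l) u (k + 1) * x (k + 1)
        + ∑ k ∈ range t.card, u l * (cf (t.erase l) u k * x (k + 1)) := by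
    rw [← Finset.sum_add_distrib]
    refine Finset.sum_congr rfl (fun k _ => ?_)
    rw [cf_succ hl]
    ring
  rw [e2]
  ring

/-- `∑_l u_l U_l(Sx) = ∑_k k f_k x_k` -/
lemma sum_UU (x : ℕ → ℝ) :
    ∑ l ∈ t, u l * UU t u (fun k => x (k + 1)) l
      = ∑ k ∈ range (t.card + 1), (k : ℝ) * cf t u k * x k := by
  rw [Finset.sum_range_succ', Nat.cast_zero, zero_mul, zero_mul, add_zero]
  unfold UU
  simp_rw [Finset.mul_sum]
  rw [Finset.sum_comm]
  refine Finset.sum_congr rfl (fun k _ => ?_)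
  have h := sum_cl t u (k + 1)
  have h2 : ∑ l ∈ t, cl t u l (k + 1) = ∑ l ∈ t, u l * cf (t.erase l) u k := by
    refine Finset.sum_congr rfl (fun l hl => ?_)
    rw [cl_succ hl]
  rw [← h, h2, Finset.sum_mul]
  refine Finset.sum_congr rfl (fun l _ => ?_)
  ring

/-- **The null identity**, general weights. -/
theorem null_form_CW (hu : ∀ l ∈ t, 0 < u l) {ω : ℕ → ℕ → ℝ} (hω : ∀ i l, ω i l = ω l i)
    (hneg : ∀ α : ℕ → ℝ, ∑ i ∈ t, α i = 0 → ∑ i ∈ t, ∑ l ∈ t, ω i l * (α i * α l) ≤ 0)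
    {x : ℕ → ℝ} (h0 : ∑ k ∈ range (t.card + 1), cf t u k * x k = 0)
    (h1 : ∑ k ∈ range (t.card + 1), (k : ℝ) * cf t u k * x k = 0) :
    0 ≤ ∑ j ∈ range t.card, ∑ k ∈ range t.card, CW t u ω j k * (x j * x (k + 1)) := by
  rw [CW_form ω x (fun k => x (k + 1))]
  set V : ℕ → ℝ := fun l => u l * UU t u (fun k => x (k + 1)) l with hV
  have hU : ∀ i ∈ t, UU t u x i = - V i := by
    intro i hi
    have := sum_eq_UU hi x (u := u)
    rw [h0] at this
    simp only [hV]
    linarith
  have hsum : ∑ l ∈ t, V l = 0 := by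
    simp only [hV]
    rw [sum_UU, h1]
  have e1 : ∑ i ∈ t, ∑ l ∈ t, ω i l * (u i * u l / (u i + u l)) *
        (UU t u x i * UU t u (fun k => x (k + 1)) l)
      = - ∑ i ∈ t, ∑ l ∈ t, u i / (u i + u l) * (ω i l * (V i * V l)) := by
    rw [← Finset.sum_neg_distrib]
    refine Finset.sum_congr rfl (fun i hi => ?_)
    rw [← Finset.sum_neg_distrib]
    refine Finset.sum_congr rfl (fun l _ => ?_)
    rw [hU i hi]
    simp only [hV]
    ring
  rw [e1]
  have e2 : 2 * ∑ i ∈ t, ∑ l ∈ t, u i / (u i + u l) * (ω i l * (V i * V l))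
      = ∑ i ∈ t, ∑ l ∈ t, ω i l * (V i * V l) := by
    have e3 : ∑ i ∈ t, ∑ l ∈ t, u i / (u i + u l) * (ω i l * (V i * V l))
        = ∑ i ∈ t, ∑ l ∈ t, u l / (u i + u l) * (ω i l * (V i * V l)) := by
      rw [Finset.sum_comm]
      refine Finset.sum_congr rfl (fun i _ => Finset.sum_congr rfl (fun l _ => ?_))
      rw [hω l i, add_comm (u l) (u i)]
      ring
    rw [two_mul]
    nth_rewrite 2 [e3]
    rw [← Finset.sum_add_distrib]
    refine Finset.sum_congr rfl (fun i hi => ?_)
    rw [← Finset.sum_add_distrib]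
    refine Finset.sum_congr rfl (fun l hl => ?_)
    have hpos : u i + u l ≠ 0 := (add_pos (hu i hi) (hu l hl)).ne'
    rw [← add_mul, ← add_div, div_self hpos, one_mul]
  have := hneg V hsum
  linarith

/-- **The null identity.** -/
theorem null_form (hu : ∀ l ∈ t, 0 < u l)
    {x : ℕ → ℝ} (h0 : ∑ k ∈ range (t.card + 1), cf t u k * x k = 0)
    (h1 : ∑ k ∈ range (t.card + 1), (k : ℝ) * cf t u k * x k = 0) :
    0 ≤ ∑ j ∈ range t.card, ∑ k ∈ range t.card, CK t u j k * (x j * x (k + 1)) := by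
  have := null_form_CW hu (ω := fun _ _ => 1) (fun _ _ => rfl) ?_ h0 h1
  · refine this.trans_eq ?_
    refine Finset.sum_congr rfl (fun j _ => Finset.sum_congr rfl (fun k _ => ?_))
    rw [CK_eq_CW]
  · intro α hα
    have : ∑ i ∈ t, ∑ l ∈ t, (1 : ℝ) * (α i * α l) = (∑ i ∈ t, α i) * ∑ l ∈ t, α l := by
      rw [Finset.sum_mul_sum]
      simp
    rw [this, hα, mul_zero]

/-! ### positivity of the Cauchy form -/

theorem cauchy_form (t : Finset ℕ) : (∀ l ∈ t, 0 < u l) → Set.InjOn u t → ∀ c : ℕ → ℝ,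
    0 ≤ ∑ i ∈ t, ∑ l ∈ t, (u i * u l / (u i + u l)) * (c i * c l) ∧
    (∑ i ∈ t, ∑ l ∈ t, (u i * u l / (u i + u l)) * (c i * c l) = 0 → ∀ i ∈ t, c i = 0) := by
  induction t using Finset.induction_on with
  | empty => intro _ _ c; simp
  | insert a s ha ih =>
    intro hu hinj c
    have hua : 0 < u a := hu a (Finset.mem_insert_self a s)
    have hus : ∀ l ∈ s, 0 < u l := fun l hl => hu l (Finset.mem_insert_of_mem hl)
    have hinjs : Set.InjOn u s := hinj.mono (by
      intro z hz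
      exact Finset.mem_coe.mpr (Finset.mem_insert_of_mem (Finset.mem_coe.mp hz)))
    set c' : ℕ → ℝ := fun i => c i * (u i - u a) / (u i + u a) with hc'
    obtain ⟨h1, h2⟩ := ih hus hinjs c'
    set L : ℝ := c a + ∑ l ∈ s, 2 * u l / (u l + u a) * c l with hL
    have key : ∑ i ∈ insert a s, ∑ l ∈ insert a s, (u i * u l / (u i + u l)) * (c i * c l)
        = u a / 2 * L ^ 2 + ∑ i ∈ s, ∑ l ∈ s, (u i * u l / (u i + u l)) * (c' i * c' l) := by
      rw [Finset.sum_insert ha, Finset.sum_insert ha]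
      have e1 : ∑ i ∈ s, ∑ l ∈ insert a s, (u i * u l / (u i + u l)) * (c i * c l)
          = ∑ i ∈ s, (u i * u a / (u i + u a)) * (c i * c a)
            + ∑ i ∈ s, ∑ l ∈ s, (u i * u l / (u i + u l)) * (c i * c l) := by
        rw [← Finset.sum_add_distrib]
        refine Finset.sum_congr rfl (fun i _ => ?_)
        rw [Finset.sum_insert ha]
      rw [e1]
      have e2 : ∑ i ∈ s, ∑ l ∈ s, (u i * u l / (u i + u l)) * (c i * c l)
          = u a / 2 * ((∑ l ∈ s, 2 * u l / (u l + u a) * c l)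
              * (∑ l ∈ s, 2 * u l / (u l + u a) * c l))
            + ∑ i ∈ s, ∑ l ∈ s, (u i * u l / (u i + u l)) * (c' i * c' l) := by
        rw [Finset.sum_mul_sum, Finset.mul_sum, ← Finset.sum_add_distrib]
        refine Finset.sum_congr rfl (fun i hi => ?_)
        rw [Finset.mul_sum, ← Finset.sum_add_distrib]
        refine Finset.sum_congr rfl (fun l hl => ?_)
        have h3 := hus i hi
        have h4 := hus l hl
        simp only [hc']
        have h5 : u i + u l ≠ 0 := (add_pos h3 h4).ne'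
        have h6 : u i + u a ≠ 0 := (add_pos h3 hua).ne'
        have h7 : u l + u a ≠ 0 := (add_pos h4 hua).ne'
        field_simp
        ring
      rw [e2]
      have e3 : ∑ i ∈ s, (u i * u a / (u i + u a)) * (c i * c a)
          = u a / 2 * (c a * ∑ l ∈ s, 2 * u l / (u l + u a) * c l) := by
        rw [Finset.mul_sum, Finset.mul_sum]
        refine Finset.sum_congr rfl (fun i hi => ?_)
        have h6 : u i + u a ≠ 0 := (add_pos (hus i hi) hua).ne'
        field_simp
      have e4 : ∑ l ∈ s, (u a * u l / (u a + u l)) * (c a * c l)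
          = u a / 2 * (c a * ∑ l ∈ s, 2 * u l / (u l + u a) * c l) := by
        rw [Finset.mul_sum, Finset.mul_sum]
        refine Finset.sum_congr rfl (fun i hi => ?_)
        have h6 : u i + u a ≠ 0 := (add_pos (hus i hi) hua).ne'
        rw [add_comm (u a) (u i)]
        field_simp
      rw [e3, e4, hL]
      have e5 : u a * u a / (u a + u a) = u a / 2 := by
        field_simp
        ring
      rw [e5]
      ring
    constructor
    · rw [key]
      have := mul_nonneg (by positivity : (0 : ℝ) ≤ u a / 2) (sq_nonneg L)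
      linarith
    · intro h0
      rw [key] at h0
      have h3 := mul_nonneg (by positivity : (0 : ℝ) ≤ u a / 2) (sq_nonneg L)
      have h4 : ∑ i ∈ s, ∑ l ∈ s, (u i * u l / (u i + u l)) * (c' i * c' l) = 0 := by linarith
      have h5 : L ^ 2 = 0 := by
        have : u a / 2 * L ^ 2 = 0 := by linarith
        rcases mul_eq_zero.1 this with h | h
        · linarith
        · exact h
      have hcs : ∀ i ∈ s, c i = 0 := by
        intro i hi
        have h6 := h2 h4 i hi
        simp only [hc'] at h6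
        have h7 : u i + u a ≠ 0 := (add_pos (hus i hi) hua).ne'
        have h8 : u i - u a ≠ 0 := by
          intro h
          have h9 : u i = u a := by linarith
          have := hinj (Finset.mem_coe.mpr (Finset.mem_insert_of_mem hi))
            (Finset.mem_coe.mpr (Finset.mem_insert_self a s)) h9
          rw [this] at hi
          exact ha hi
        rw [div_eq_zero_iff] at h6
        rcases h6 with h6 | h6
        · rcases mul_eq_zero.1 h6 with h | h
          · exact h
          · exact absurd h h8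
        · exact absurd h6 h7
      intro i hi
      rcases Finset.mem_insert.1 hi with rfl | hi
      · have h6 : L = 0 := by nlinarith [h5]
        rw [hL] at h6
        have : ∑ l ∈ s, 2 * u l / (u l + u i) * c l = 0 :=
          Finset.sum_eq_zero (fun l hl => by rw [hcs l hl, mul_zero])
        rw [this, add_zero] at h6
        exact h6
      · exact hcs i hi

end Pool.Agent.GM65
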