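import Mathlib
import Pool.Agent.GM65.Core
import Pool.Agent.K80.Touch

/-!
# GM65.Pos: strict positivity of the Cauchy kernel, geometric means of commuting multipliers
-/

open Polynomial Finset

namespace Pool.Agent.GM65

open Pool.Agent.ST50 Pool.Agent.ST11 Pool.Agent.H62LR

variable {t : Finset ℕ} {u : ℕ → ℝ}

lemma eval_pr (s : Finset ℕ) (u : ℕ → ℝ) (x : ℝ) :
    (pr s u).eval x = ∏ l ∈ s, (1 + u l * x) := by
  unfold pr
  rw [eval_prod]
  refine Finset.prod_congr rfl (fun l _ => ?_)
  simp

lemma natDegree_pr_le (s : Finset ℕ) (u : ℕ → ℝ) : (pr s u).natDegree ≤ s.card := by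
  rw [natDegree_le_iff_coeff_eq_zero]
  intro k hk
  exact cf_eq_zero u hk

/-- the polynomials `f / (1 + u_l x)` span, if the `u_l` are distinct -/
theorem span_zero (hu : ∀ l ∈ t, 0 < u l) (hinj : Set.InjOn u t) {x : ℕ → ℝ}
    (h : ∀ l ∈ t, UU t u x l = 0) : ∀ k < t.card, x k = 0 := by
  intro k0 hk0
  -- Lagrange interpolation of `X ^ k0`
  set node : ℕ → ℝ := fun l => -(1 / u l) with hnode
  have hnode_inj : Set.InjOn node t := by
    intro a ha b hb hab
    simp only [hnode, neg_inj] at hab
    have h1 := hu a ha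
    have h2 := hu b hb
    refine hinj ha hb ?_
    field_simp at hab
    exact hab.symm
  have hoff : ∀ l ∈ t, ∀ m ∈ t, m ≠ l → (pr (t.erase l) u).eval (node m) = 0 := by
    intro l hl m hm hml
    rw [eval_pr]
    refine Finset.prod_eq_zero (i := m) (Finset.mem_erase.mpr ⟨hml, hm⟩) ?_
    have := (hu m hm).ne'
    simp only [hnode]
    field_simp
    ring
  have hdiag : ∀ l ∈ t, (pr (t.erase l) u).eval (node l) ≠ 0 := by
    intro l hl
    rw [eval_pr, Finset.prod_ne_zero_iff]
    intro m hm h0
    obtain ⟨hml, hmt⟩ := Finset.mem_erase.mp hm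
    have h1 := (hu l hl).ne'
    simp only [hnode] at h0
    apply hml
    refine hinj hmt hl ?_
    have h2 : u m * (1 / u l) = 1 := by linarith
    field_simp at h2
    exact h2
  set A : ℕ → ℝ := fun l => (node l) ^ k0 / (pr (t.erase l) u).eval (node l) with hA
  have hcard : (t.image node).card = t.card := Finset.card_image_of_injOn hnode_inj
  have hpoly : (X ^ k0 : ℝ[X]) = ∑ l ∈ t, C (A l) * pr (t.erase l) u := by
    refine eq_of_degrees_lt_of_eval_finset_eq (t.image node) ?_ ?_ ?_
    · rw [hcard, degree_X_pow]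
      exact_mod_cast hk0
    · rw [hcard]
      refine (degree_sum_le _ _).trans_lt ?_
      rw [Finset.sup_lt_iff (by exact WithBot.bot_lt_coe _)]
      intro l hl
      refine (degree_mul_le _ _).trans_lt ?_
      refine lt_of_le_of_lt (add_le_add degree_C_le degree_le_natDegree) ?_
      rw [zero_add]
      have h1 := natDegree_pr_le (t.erase l) u
      rw [Finset.card_erase_of_mem hl] at h1
      have : (pr (t.erase l) u).natDegree < t.card := by omega
      exact_mod_cast this
    · intro y hy
      obtain ⟨m, hm, rfl⟩ := Finset.mem_image.1 hy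
      rw [eval_pow, eval_X, eval_finsetSum, Finset.sum_eq_single m]
      · rw [eval_C_mul]
        simp only [hA]
        rw [div_mul_cancel₀ _ (hdiag m hm)]
      · intro l hl hlm
        rw [eval_C_mul, hoff l hl m hm (Ne.symm hlm), mul_zero]
      · intro h1
        exact absurd hm h1
  have hcoef : ∀ k, (if k = k0 then (1 : ℝ) else 0) = ∑ l ∈ t, A l * cf (t.erase l) u k := by
    intro k
    have := congrArg (fun q => q.coeff k) hpoly
    simp only [coeff_X_pow, finsetSum_coeff, coeff_C_mul] at this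
    exact this
  have h1 : ∑ k ∈ range t.card, (if k = k0 then (1 : ℝ) else 0) * x k = x k0 := by
    rw [Finset.sum_eq_single k0]
    · simp
    · intro k _ hk
      rw [if_neg hk, zero_mul]
    · intro h2
      exact absurd (Finset.mem_range.mpr hk0) h2
  rw [← h1]
  have h2 : ∑ k ∈ range t.card, (if k = k0 then (1 : ℝ) else 0) * x k
      = ∑ l ∈ t, A l * UU t u x l := by
    unfold UU
    simp_rw [Finset.mul_sum]
    rw [Finset.sum_comm]
    refine Finset.sum_congr rfl (fun k _ => ?_)
    rw [hcoef k, Finset.sum_mul]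
    refine Finset.sum_congr rfl (fun l _ => ?_)
    ring
  rw [h2]
  refine Finset.sum_eq_zero (fun l hl => ?_)
  rw [h l hl, mul_zero]

/-- the Cauchy kernel is positive definite -/
theorem CK_pos (hu : ∀ l ∈ t, 0 < u l) (hinj : Set.InjOn u t) {x : ℕ → ℝ}
    (hx : ∃ k < t.card, x k ≠ 0) :
    0 < ∑ j ∈ range t.card, ∑ k ∈ range t.card, CK t u j k * (x j * x k) := by
  rw [CK_form]
  obtain ⟨h1, h2⟩ := cauchy_form t hu hinj (UU t u x)
  refine lt_of_le_of_ne h1 (fun h3 => ?_)
  obtain ⟨k, hk, hk'⟩ := hx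
  exact hk' (span_zero hu hinj (h2 h3.symm) k hk)

/-! ### geometric means -/

/-- the form of a kernel `B` with multipliers -/
noncomputable def form (n : ℕ) (B : ℕ → ℕ → ℝ) (x z : ℕ → ℝ) : ℝ :=
  ∑ j ∈ range n, ∑ k ∈ range n, B j k * (x j * z k)

lemma form_symm {n : ℕ} {B : ℕ → ℕ → ℝ} (hB : ∀ j k, B j k = B k j) (x z : ℕ → ℝ) :
    form n B x z = form n B z x := by
  unfold form
  rw [Finset.sum_comm]
  refine Finset.sum_congr rfl (fun j _ => Finset.sum_congr rfl (fun k _ => ?_))
  rw [hB]
  ring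

/-- accretivity of the multiplier `p` -/
def Acc (n : ℕ) (B : ℕ → ℕ → ℝ) (p : ℕ → ℝ) : Prop :=
  ∀ w : ℕ → ℝ, 0 ≤ form n B w (fun k => p k * w k)

lemma acc_of_sym {n : ℕ} {B : ℕ → ℕ → ℝ} (hB : ∀ j k, B j k = B k j) {p : ℕ → ℝ}
    (h : ∀ w : ℕ → ℝ, 0 ≤ ∑ j ∈ range n, ∑ k ∈ range n, (p j + p k) * B j k * (w j * w k)) :
    Acc n B p := by
  intro w
  have h1 := h w
  have e : ∑ j ∈ range n, ∑ k ∈ range n, (p j + p k) * B j k * (w j * w k)
      = form n B w (fun k => p k * w k) + form n B (fun k => p k * w k) w := by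
    unfold form
    rw [← Finset.sum_add_distrib]
    refine Finset.sum_congr rfl (fun j _ => ?_)
    rw [← Finset.sum_add_distrib]
    refine Finset.sum_congr rfl (fun k _ => ?_)
    ring
  rw [e, form_symm hB (fun k => p k * w k) w] at h1
  linarith

/-- **Geometric means of commuting accretive multipliers.** -/
theorem geo_pos {n : ℕ} {B : ℕ → ℕ → ℝ} (_hB : ∀ j k, B j k = B k j) {p q : ℕ → ℝ}
    (hp : ∀ j < n, 0 < p j) (hq : ∀ j < n, 0 < q j) (accp : Acc n B p) (accq : Acc n B q)
    {x : ℕ → ℝ} (hx : 0 < form n B x (fun k => p k * x k)) {θ : ℝ} (h0 : 0 ≤ θ) (h1 : θ < 1) :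
    0 < form n B x (fun k => p k ^ (1 - θ) * q k ^ θ * x k) := by
  have hmain := Pool.Agent.K80.loewner_vec (n := n) (G := fun j k => B j k * p k)
    (d := fun k => q k / p k) (x := x) (fun j hj => div_pos (hq j hj) (hp j hj)) ?_ ?_ h0 h1
  · refine hmain.trans_eq ?_
    unfold form
    refine Finset.sum_congr rfl (fun j _ => Finset.sum_congr rfl (fun k hk => ?_))
    have hpk := hp k (Finset.mem_range.mp hk)
    have hqk := hq k (Finset.mem_range.mp hk)
    beta_reduce
    rw [Real.div_rpow hqk.le hpk.le, Real.rpow_sub hpk, Real.rpow_one]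
    have := (Real.rpow_pos_of_pos hpk θ).ne'
    field_simp
  · refine hx.trans_eq ?_
    unfold form
    refine Finset.sum_congr rfl (fun j _ => Finset.sum_congr rfl (fun k _ => ?_))
    ring
  · intro τ hτ
    set w : ℕ → ℝ := fun k => x k / (τ * p k + q k) with hw
    have hden : ∀ k < n, τ * p k + q k ≠ 0 := fun k hk =>
      (add_pos (mul_pos hτ (hp k hk)) (hq k hk)).ne'
    have e : ∑ j ∈ range n, ∑ k ∈ range n,
        B j k * p k * (q k / p k / (τ + q k / p k)) * (x j * x k)
        = τ * form n B (fun k => p k * w k) (fun k => q k * (p k * w k))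
          + form n B (fun k => q k * w k) (fun k => p k * (q k * w k)) := by
      unfold form
      rw [Finset.mul_sum, ← Finset.sum_add_distrib]
      refine Finset.sum_congr rfl (fun j hj => ?_)
      rw [Finset.mul_sum, ← Finset.sum_add_distrib]
      refine Finset.sum_congr rfl (fun k hk => ?_)
      have hpk := hp k (Finset.mem_range.mp hk)
      have hqk := hq k (Finset.mem_range.mp hk)
      have hj' := hden j (Finset.mem_range.mp hj)
      have hk' := hden k (Finset.mem_range.mp hk)
      have hk'' : τ + q k / p k ≠ 0 := by positivity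
      have e1 : p k * (q k / p k / (τ + q k / p k)) = p k * q k / (τ * p k + q k) := by
        field_simp
      have e2 : B j k * p k * (q k / p k / (τ + q k / p k)) * (x j * x k)
          = B j k * (p k * (q k / p k / (τ + q k / p k))) * (x j * x k) := by ring
      rw [e2, e1]
      simp only [hw]
      field_simp
    show 0 ≤ ∑ j ∈ range n, ∑ k ∈ range n,
        B j k * p k * (q k / p k / (τ + q k / p k)) * (x j * x k)
    rw [e]
    exact add_nonneg (mul_nonneg hτ.le (accq _)) (accp _)

/-- powers of an accretive multiplier -/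
theorem rpow_pos_form {n : ℕ} {B : ℕ → ℕ → ℝ} (hB : ∀ j k, B j k = B k j) {q : ℕ → ℝ}
    (hq : ∀ j < n, 0 < q j) (hB0 : ∀ w, 0 ≤ form n B w w) (accq : Acc n B q)
    {x : ℕ → ℝ} (hx : 0 < form n B x x) {θ : ℝ} (h0 : 0 ≤ θ) (h1 : θ < 1) :
    0 < form n B x (fun k => q k ^ θ * x k) := by
  have := geo_pos hB (p := fun _ => 1) (fun _ _ => one_pos) hq (fun w => by simpa using hB0 w)
    accq (x := x) (by simpa using hx) h0 h1
  simpa using this

end Pool.Agent.GM65
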