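import Mathlib
import Pool.Agent.GM65.Pos
import Pool.Agent.GM.Cert
import Pool.Agent.GM.Main

/-!
# GM65.Cauchy: the weighted Cauchy (Lyapunov) kernels of `f_m` are energy certificates

`f_m = ∑ a_k^m x^k = c ∏_{l ∈ t} (1 + u_l x)` with distinct `u_l > 0`,
`C(j,k) = ∑_{i,l} ω_{il} u_i u_l / (u_i + u_l) φ_i(j) φ_l(k)`,
`φ_i(k) = [x^k] (f_m / (1 + u_i x)) / [x^k] f_m`.
Only the accretivity (field `acc`) remains as hypothesis.
-/

open Polynomial Finset

namespace Pool.Agent.GM65

open Pool.Agent.ST50 Pool.Agent.ST11 Pool.Agent.H62LR Pool.Agent.GM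

variable {t : Finset ℕ} {u : ℕ → ℝ}

/-- the weighted Cauchy kernel, normalised by the coefficients of `f_m` -/
noncomputable def CC (t : Finset ℕ) (u : ℕ → ℝ) (ω : ℕ → ℕ → ℝ) (j k : ℕ) : ℝ :=
  CW t u ω j k / (cf t u j * cf t u k)

/-- **The weighted Cauchy kernels are certificates**, as soon as `T` is accretive for them. -/
theorem cert_of_cauchy {m n : ℕ} {a : ℕ → ℝ} (hn : 1 ≤ n) (ht : t.card = n)
    (hu : ∀ l ∈ t, 0 < u l) (hinj : Set.InjOn u t) {c : ℝ} (hc : 0 < c)
    (hf : ∀ k ≤ n, a k ^ m = c * cf t u k) (ha : ∀ k ≤ n, 0 < a k)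
    {ω : ℕ → ℕ → ℝ} (hω : ∀ i l, ω i l = ω l i)
    (hneg : ∀ α : ℕ → ℝ, ∑ i ∈ t, α i = 0 → ∑ i ∈ t, ∑ l ∈ t, ω i l * (α i * α l) ≤ 0)
    (hpos : ∀ b : ℕ → ℝ, (∃ i ∈ t, b i ≠ 0) →
      0 < ∑ i ∈ t, ∑ l ∈ t, ω i l * (u i * u l / (u i + u l)) * (b i * b l))
    (hacc : ∀ w : ℕ → ℝ, Alt n w →
      0 ≤ ∑ j ∈ range n, ∑ k ∈ range n, T a j * CC t u ω j k * (w j * w k)) :
    Cert m n a (CC t u ω) := by
  have hfp : ∀ k ≤ n, 0 < cf t u k := by
    intro k hk
    have h1 := hf k hk
    have h2 := pow_pos (ha k hk) m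
    rw [h1] at h2
    exact (pos_iff_pos_of_mul_pos h2).1 hc
  refine ⟨?_, hacc, ?_⟩
  · intro w hw
    set x : ℕ → ℝ := fun k => w k / cf t u k with hx
    have e : ∑ j ∈ range n, ∑ k ∈ range n, CC t u ω j k * (w j * w k)
        = ∑ i ∈ t, ∑ l ∈ t, ω i l * (u i * u l / (u i + u l)) * (UU t u x i * UU t u x l) := by
      rw [← CW_form, ht]
      refine Finset.sum_congr rfl (fun j hj => Finset.sum_congr rfl (fun k hk => ?_))
      have h1 := (hfp j (Finset.mem_range.1 hj).le).ne'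
      have h2 := (hfp k (Finset.mem_range.1 hk).le).ne'
      unfold CC
      simp only [hx]
      field_simp
    rw [e]
    refine hpos _ ?_
    by_contra hcon
    push Not at hcon
    have h3 := span_zero hu hinj hcon 0 (by omega)
    have h4 := hw 0 (by omega)
    simp only [hx, cf_zero, div_one] at h3
    rw [h3] at h4
    simp at h4
  · intro w _ h0 h1
    set x : ℕ → ℝ := fun k => w k / cf t u k with hx
    have hwx : ∀ k ≤ n, cf t u k * x k = w k := by
      intro k hk
      have := (hfp k hk).ne'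
      simp only [hx]
      field_simp
    have h0' : ∑ k ∈ range (t.card + 1), cf t u k * x k = 0 := by
      rw [ht, ← h0]
      exact Finset.sum_congr rfl (fun k hk => hwx k (by
        have := Finset.mem_range.1 hk; omega))
    have h1' : ∑ k ∈ range (t.card + 1), (k : ℝ) * cf t u k * x k = 0 := by
      rw [ht, ← h1]
      refine Finset.sum_congr rfl (fun k hk => ?_)
      rw [mul_assoc, hwx k (by have := Finset.mem_range.1 hk; omega)]
    have h2 := null_form_CW hu hω hneg h0' h1'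
    rw [ht] at h2
    have e : ∑ j ∈ range n, ∑ k ∈ range n, T a j ^ m * CC t u ω j k * (w (j + 1) * w k)
        = ∑ j ∈ range n, ∑ k ∈ range n, CW t u ω j k * (x j * x (k + 1)) := by
      rw [Finset.sum_comm]
      refine Finset.sum_congr rfl (fun k hk => Finset.sum_congr rfl (fun j hj => ?_))
      have hj' := Finset.mem_range.1 hj
      have hk' := Finset.mem_range.1 hk
      have g1 := (hfp j hj'.le).ne'
      have g2 := (hfp k hk'.le).ne'
      have g3 := (hfp (j + 1) (by omega)).ne'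
      have hT : T a j ^ m = cf t u j / cf t u (j + 1) := by
        unfold T
        rw [div_pow, hf j hj'.le, hf (j + 1) (by omega)]
        have := hc.ne'
        field_simp
      have hsym : CW t u ω k j = CW t u ω j k := by
        unfold CW
        rw [Finset.sum_comm]
        refine Finset.sum_congr rfl (fun i _ => Finset.sum_congr rfl (fun l _ => ?_))
        rw [hω l i, add_comm (u l) (u i)]
        ring
      rw [hT, hsym]
      unfold CC
      simp only [hx]
      field_simp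
    rw [e]
    exact h2

/-! ### existence of the representation -/

lemma exists_rep {n : ℕ} {b : ℕ → ℝ} (hb : PF n b) : ∃ u : ℕ → ℝ,
    (∀ l ∈ range n, 0 < u l) ∧ ∀ k ≤ n, b k = b 0 * cf (range n) u k := by
  obtain ⟨m, hcard, hpos, hprod⟩ := hb.exists_roots
  obtain ⟨y, hy1, hy2⟩ := exists_index m
  rw [hcard] at hy1 hy2
  refine ⟨y, fun l hl => hpos _ (hy2 l hl), fun k hk => ?_⟩
  have h1 : (Pool.Agent.H62LR.poly n b).coeff k = b k := by rw [coeff_poly, if_pos hk]
  rw [← h1, hprod, hy1, coeff_C_mul]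
  rfl

lemma UU_pow (s : Finset ℕ) (u : ℕ → ℝ) (x : ℝ) {l : ℕ} (hl : l ∈ s) :
    UU s u (fun k => x ^ (k + 1)) l = x * ∏ i ∈ s.erase l, (1 + u i * x) := by
  have h1 := natDegree_pr_le (s.erase l) u
  rw [Finset.card_erase_of_mem hl] at h1
  have h2 : 0 < s.card := Finset.card_pos.2 ⟨l, hl⟩
  rw [← eval_pr, eval_eq_sum_range' (n := s.card) (by omega)]
  unfold UU
  rw [Finset.mul_sum]
  refine Finset.sum_congr rfl (fun k _ => ?_)
  unfold cf
  ring

lemma injOn_of_simple {n : ℕ} {b : ℕ → ℝ} {u : ℕ → ℝ} (hu : ∀ l ∈ range n, 0 < u l)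
    (hb : ∀ k ≤ n, b k = b 0 * cf (range n) u k)
    (hs : ∀ x < 0, ∑ k ∈ range (n + 1), b k * x ^ k = 0 →
      ∑ k ∈ range (n + 1), (k : ℝ) * (b k * x ^ k) = 0 → False) :
    Set.InjOn u (range n) := by
  intro i hi j hj hij
  by_contra hne
  have hi' : i ∈ range n := Finset.mem_coe.1 hi
  have hj' : j ∈ range n := Finset.mem_coe.1 hj
  have hui := hu i hi'
  set x : ℝ := -(1 / u i) with hx
  have hx0 : x < 0 := by
    simp only [hx]
    have : 0 < 1 / u i := by positivity
    linarith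
  have h1 : 1 + u i * x = 0 := by
    simp only [hx]
    field_simp
    ring
  have h2 : 1 + u j * x = 0 := by rw [← hij]; exact h1
  refine hs x hx0 ?_ ?_
  · have e : ∑ k ∈ range (n + 1), b k * x ^ k = b 0 * (pr (range n) u).eval x := by
      have h3 := natDegree_pr_le (range n) u
      rw [Finset.card_range] at h3
      rw [eval_eq_sum_range' (n := n + 1) (by omega), Finset.mul_sum]
      refine Finset.sum_congr rfl (fun k hk => ?_)
      rw [hb k (by have := Finset.mem_range.1 hk; omega)]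
      unfold cf
      ring
    rw [e, eval_pr, Finset.prod_eq_zero hi' h1, mul_zero]
  · have e : ∑ k ∈ range (n + 1), (k : ℝ) * (b k * x ^ k)
        = b 0 * ∑ k ∈ range ((range n).card + 1), (k : ℝ) * cf (range n) u k * x ^ k := by
      rw [Finset.card_range, Finset.mul_sum]
      refine Finset.sum_congr rfl (fun k hk => ?_)
      rw [hb k (by have := Finset.mem_range.1 hk; omega)]
      ring
    rw [e, ← sum_UU (fun k => x ^ k)]
    have e2 : ∑ l ∈ range n, u l * UU (range n) u (fun k => (fun k => x ^ k) (k + 1)) l = 0 := by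
      refine Finset.sum_eq_zero (fun l hl => ?_)
      beta_reduce
      rw [UU_pow (range n) u x hl]
      by_cases hli : l = i
      · have : j ∈ (range n).erase l := Finset.mem_erase.2 ⟨by rw [hli]; exact fun h => hne h.symm, hj'⟩
        rw [Finset.prod_eq_zero this h2]
        ring
      · have : i ∈ (range n).erase l := Finset.mem_erase.2 ⟨fun h => hli h.symm, hi'⟩
        rw [Finset.prod_eq_zero this h1]
        ring
    rw [e2, mul_zero]

/-- the weights `ω = 1`: the kernel `G_m` -/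
lemma weights_one (hu : ∀ l ∈ t, 0 < u l) (hinj : Set.InjOn u t) :
    (∀ α : ℕ → ℝ, ∑ i ∈ t, α i = 0 → ∑ i ∈ t, ∑ l ∈ t, (1 : ℝ) * (α i * α l) ≤ 0) ∧
    (∀ b : ℕ → ℝ, (∃ i ∈ t, b i ≠ 0) →
      0 < ∑ i ∈ t, ∑ l ∈ t, (1 : ℝ) * (u i * u l / (u i + u l)) * (b i * b l)) := by
  constructor
  · intro α hα
    have : ∑ i ∈ t, ∑ l ∈ t, (1 : ℝ) * (α i * α l) = (∑ i ∈ t, α i) * ∑ l ∈ t, α l := by
      rw [Finset.sum_mul_sum]
      simp
    rw [this, hα, mul_zero]
  · rintro b ⟨i, hi, hbi⟩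
    simp only [one_mul]
    obtain ⟨h1, h2⟩ := cauchy_form t hu hinj b
    refine lt_of_le_of_ne h1 (fun h3 => hbi (h2 h3.symm i hi))

/-- the weights `ω_{il} = b_i + b_l` -/
lemma weights_add_neg (b : ℕ → ℝ) (α : ℕ → ℝ) (hα : ∑ i ∈ t, α i = 0) :
    ∑ i ∈ t, ∑ l ∈ t, (b i + b l) * (α i * α l) ≤ 0 := by
  have : ∑ i ∈ t, ∑ l ∈ t, (b i + b l) * (α i * α l)
      = (∑ i ∈ t, b i * α i) * (∑ l ∈ t, α l) + (∑ i ∈ t, α i) * ∑ l ∈ t, b l * α l := by
    rw [Finset.sum_mul_sum, Finset.sum_mul_sum, ← Finset.sum_add_distrib]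
    refine Finset.sum_congr rfl (fun i _ => ?_)
    rw [← Finset.sum_add_distrib]
    refine Finset.sum_congr rfl (fun l _ => ?_)
    ring
  rw [this, hα]
  simp

end Pool.Agent.GM65
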