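import Mathlib
import Pool.Agent.GM65.Cauchy
import Pool.Agent.PC.Simple

/-!
# GM65.Simple: the zeros of `f_m = ∑ a_k^m x^k`, `m ≥ 2`, are simple
-/

open Polynomial Finset

namespace Pool.Agent.GM65

open Pool.Agent.ST50 Pool.Agent.ST11 Pool.Agent.H62LR Pool.Agent.GM Pool.Agent.K80
open B4
open Pool.Agent.PC (Simple simple_comp)

/-- the squares -/
theorem simple_sq {n : ℕ} {a : ℕ → ℝ} (ha : PF n a) : Simple n (fun k => a k ^ 2) := by
  intro x hx h0 h1
  rcases Nat.eq_zero_or_pos n with hn | hn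
  · subst hn
    have := ha.1 0 le_rfl
    simp at h0
    exact this.ne' h0
  set b : ℕ → ℝ := fun k => if k ≤ n then a k else 0 with hb
  have hab : ∀ k ≤ n, a k = b k := fun k hk => by simp only [hb]; rw [if_pos hk]
  have hbPF : PF n b := ha.congr hab
  have hb0 : ∀ k, n < k → b k = 0 := fun k hk => by simp only [hb]; rw [if_neg (by omega)]
  have h0' : ∑ k ∈ range (n + 1), b k ^ 2 * x ^ k = 0 := by
    rw [← h0]
    exact Finset.sum_congr rfl (fun k hk => by
      beta_reduce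
      rw [hab k (by have := Finset.mem_range.1 hk; omega)])
  have h1' : ∑ k ∈ range (n + 1), (k : ℝ) * b k ^ 2 * x ^ k = 0 := by
    rw [← h1]
    exact Finset.sum_congr rfl (fun k hk => by
      beta_reduce
      rw [hab k (by have := Finset.mem_range.1 hk; omega)]; ring)
  have I3 := identity_three (x := fun k => x ^ k) hb0 h0' h1'
  have hX := XH_pos hbPF hb0 (fun k => x ^ k) ⟨0, hn, by simp⟩
  have hsym : ∑ j ∈ range n, ∑ k ∈ range n,
      ((k : ℝ) - j) * XH b j k * ((fun k => x ^ k) j * (fun k => x ^ k) k) = 0 :=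
    antisymm_sum_zero' (fun j k => XH_symm _ j k) _
  have e : ∑ j ∈ range n, ∑ k ∈ range n,
      ((k : ℝ) + 1 - j) * XH b j k * ((fun k => x ^ k) j * (fun k => x ^ k) (k + 1))
      = x * (∑ j ∈ range n, ∑ k ∈ range n, XH b j k * (x ^ j * x ^ k)
        + ∑ j ∈ range n, ∑ k ∈ range n, ((k : ℝ) - j) * XH b j k * (x ^ j * x ^ k)) := by
    rw [← Finset.sum_add_distrib, Finset.mul_sum]
    refine Finset.sum_congr rfl (fun j _ => ?_)
    rw [← Finset.sum_add_distrib, Finset.mul_sum]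
    refine Finset.sum_congr rfl (fun k _ => ?_)
    beta_reduce
    rw [pow_succ]
    ring
  rw [e] at I3
  beta_reduce at hsym hX
  rw [hsym, add_zero] at I3
  rcases mul_eq_zero.1 I3 with h | h
  · exact hx.ne h
  · exact hX.ne' h

/-- all powers `m ≥ 2` -/
theorem simple_npow {n : ℕ} {a : ℕ → ℝ} (ha : PF n a) (m : ℕ) :
    Simple n (fun k => a k ^ (m + 2)) := by
  induction m with
  | zero => exact simple_sq ha
  | succ m ih =>
    have hms : MS n (fun k => a k ^ (m + 2) / (n.choose k : ℝ)) := by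
      have h1 := pf_npow ha (m + 1)
      refine PF.congr h1 (fun k hk => ?_)
      have h2 := (choose_pos' hk).ne'
      have h3 : a k ^ (((m + 1 : ℕ) : ℝ) + 1) = a k ^ (m + 2) := by
        rw [← Real.rpow_natCast]
        congr 1
        push_cast
        ring
      rw [h3]
      field_simp
    have hs : Simple n (fun k => (n.choose k : ℝ) * (a k ^ (m + 2) / (n.choose k : ℝ))) := by
      refine ih.congr (fun k hk => ?_)
      have h2 := (choose_pos' hk).ne'
      field_simp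
    have hB : MS n a := (MS.one n |> fun h => by
      have h1 : PF n (fun k => (n.choose k : ℝ)) := PF.congr h (fun k _ => mul_one _)
      exact Pool.Agent.GM.pf_mul h1 ha)
    refine (simple_comp hms hs hB).congr (fun k hk => ?_)
    have h2 := (choose_pos' hk).ne'
    field_simp
    ring

/-- **Representation of `f_m`** (`m ≥ 2`) with distinct nodes. -/
theorem exists_rep_npow {n : ℕ} {a : ℕ → ℝ} (ha : PF n a) {m : ℕ} (hm : 2 ≤ m) :
    ∃ u : ℕ → ℝ, (∀ l ∈ range n, 0 < u l) ∧ Set.InjOn u (range n) ∧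
      ∀ k ≤ n, a k ^ m = a 0 ^ m * cf (range n) u k := by
  obtain ⟨m, rfl⟩ : ∃ i, m = i + 2 := ⟨m - 2, by omega⟩
  have hPF : PF n (fun k => a k ^ (m + 2)) := by
    refine (pf_npow ha (m + 1)).congr (fun k _ => ?_)
    rw [← Real.rpow_natCast]
    congr 1
    push_cast
    ring
  obtain ⟨u, hu, hb⟩ := exists_rep hPF
  exact ⟨u, hu, injOn_of_simple hu hb (simple_npow ha m), hb⟩

/-- `T` is accretive for the kernel `G_m` -/
def AccHyp (m : ℕ) : Prop :=
  ∀ (n : ℕ) (a : ℕ → ℝ) (u : ℕ → ℝ), 1 ≤ n → PF n a → (∀ l ∈ range n, 0 < u l) →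
    Set.InjOn u (range n) → (∀ k ≤ n, a k ^ m = a 0 ^ m * cf (range n) u k) →
    ∀ w : ℕ → ℝ, Alt n w →
      0 ≤ ∑ j ∈ range n, ∑ k ∈ range n,
        T a j * CC (range n) u (fun _ _ => 1) j k * (w j * w k)

/-- `(T + T')G_m ≥ 0` for all `a` gives certificates of base `m`. -/
theorem cert_of_accHyp {m : ℕ} (hm : 2 ≤ m) (H : AccHyp m) (n : ℕ) (a : ℕ → ℝ) (hn : 1 ≤ n)
    (ha : PF n a) : ∃ C, Cert m n a C := by
  obtain ⟨u, hu, hinj, hb⟩ := exists_rep_npow ha hm
  obtain ⟨w1, w2⟩ := weights_one hu hinj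
  refine ⟨_, cert_of_cauchy hn (Finset.card_range n) hu hinj (pow_pos (ha.1 0 (Nat.zero_le _)) m)
    hb ha.1 (ω := fun _ _ => 1) (fun _ _ => rfl) w1 w2 (H n a u hn ha hu hinj hb)⟩

/-- `(T + T')G_m ≥ 0` gives all exponents `r ≥ m - 1`. -/
theorem pf_rpow_of_accHyp {m : ℕ} (hm : 2 ≤ m) (H : AccHyp m) {n : ℕ} {a : ℕ → ℝ} (ha : PF n a)
    {r : ℝ} (hr : (m : ℝ) - 1 ≤ r) : PF n (fun k => a k ^ r) :=
  pf_rpow_of_cert hm (cert_of_accHyp hm H) ha hr

end Pool.Agent.GM65
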